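import Mathlib
import Pool.Prelude.Def_F_c31e40fa
import Pool.Agent.Y272.GA.Brg

/-!
# Density of hyperbolicity near Collet-Eckmann unicritical polynomials, with rates

Let `d ≥ 2`, and let `c₀` be a point of the Multibrot set `M_d` which satisfies the Collet-Eckmann
condition: the derivatives of the iterates of `f = z ^ d + c₀` at the critical value grow
exponentially. We consider ALL polynomials `T` of degree `d` whose coefficients are within `r` of
those of `f`; so the critical point of `f` of order `d - 1` splits, in general, into `d - 1` critical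
points. With an exponent `E₀ > 2`:

(1) In each translation family `T + t`, `|t| ≤ r`, the polynomials with a critical point which does
not escape have area at most `K r ^ E`, for every `E < E₀`.

(2) Every such `T` becomes hyperbolic (all critical points escape) by adding a constant `t` with
`|t| ≤ r ^ σ`, for every `σ < E₀ / 2`.

(3) In the space of coefficients the proportion of the polynomials with a critical point which does
not escape is at most `K r ^ E`, for every `E < E₀ - 2`.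

If the critical value has a Lyapunov exponent (this is so for harmonic-almost every boundary point)
then `E₀ = 2 d / (d - 1)`, which is optimal in (1).

Method: the supremum of the areas of the non-escaping points over all slow curves in the space of
polynomials near `f` satisfies a self-improving inequality: by the passage near the critical points,
where the derivative is large compared with the perturbation, pieces of a slow curve are mapped with
bounded distortion onto slow curves of unit size; transversality of the unicritical family is carried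
over to the other families by the Schwarz lemma.
-/

set_option autoImplicit false

open MeasureTheory Filter Metric Topology Polynomial

namespace Pool.Agent.Results.MP_28f8a1_an.ColletEckmannUnicritical

open Pool.Agent.H713R2 (IsExteriorMap)

/-- The polynomial as a self-map of the plane. -/
def map (T : ℂ[X]) : ℂ → ℂ := fun z : ℂ => T.eval z

/-- The orbit of `z` escapes to infinity. -/
def Escapes (T : ℂ[X]) (z : ℂ) : Prop :=
  Tendsto (fun k : ℕ => ‖(map T)^[k] z‖) atTop atTop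

/-- The orbit of `z` is attracted by a sink of `T`. -/
def Attracted (T : ℂ[X]) (z : ℂ) : Prop :=
  ∃ n : ℕ, 0 < n ∧ ∃ x : ℂ, (map T)^[n] x = x ∧ ‖deriv ((map T)^[n]) x‖ < 1 ∧
    Tendsto (fun k : ℕ => (map T)^[n * k] z) atTop (𝓝 x)

/-- `T` is hyperbolic: every critical point escapes or is attracted by a sink. -/
def Hyperbolic (T : ℂ[X]) : Prop :=
  ∀ c : ℂ, T.derivative.eval c = 0 → Escapes T c ∨ Attracted T c

/-- All critical points escape. -/
def ShiftLocus (T : ℂ[X]) : Prop := ∀ c : ℂ, T.derivative.eval c = 0 → Escapes T c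

/-- The coefficients `a` are within `r` of those of the polynomial `z ^ d + c₀`. -/
def Near (d : ℕ) (c₀ : ℂ) (r : ℝ) (a : ℕ → ℂ) : Prop :=
  ∀ i : ℕ, ‖a i - (X ^ d + C c₀ : ℂ[X]).coeff i‖ ≤ r

/-- The vectors of coefficients (of the degrees `0, …, d`) within `r` of those of `z ^ d + c₀`. -/
def box (d : ℕ) (c₀ : ℂ) (r : ℝ) : Set (Fin (d + 1) → ℂ) :=
  {a | ∀ i : Fin (d + 1), ‖a i - (X ^ d + C c₀ : ℂ[X]).coeff i‖ ≤ r}

/-- The polynomial with the given coefficients. -/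
noncomputable def poly {d : ℕ} (a : Fin (d + 1) → ℂ) : ℂ[X] :=
  ∑ i : Fin (d + 1), C (a i) * X ^ (i : ℕ)

/-- The density of hyperbolicity at the polynomial `z ^ d + c₀` in the space of all polynomials of
degree `d`, with the exponent `E₀`. -/
def DenseAt (d : ℕ) (c₀ : ℂ) (E₀ : ℝ) : Prop :=
  (∀ E : ℝ, 0 ≤ E → E < E₀ → ∃ K r₀ : ℝ, 0 < K ∧ 0 < r₀ ∧ ∀ r : ℝ, 0 < r → r ≤ r₀ →
    ∀ T : ℂ[X], T.natDegree ≤ d → Near d c₀ r T.coeff →
      volume {t : ℂ | ‖t‖ ≤ r ∧ ¬ ShiftLocus (T + C t)} ≤ ENNReal.ofReal (K * r ^ E)) ∧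
  (∀ σ : ℝ, 1 ≤ σ → σ < E₀ / 2 → ∃ r₀ : ℝ, 0 < r₀ ∧ ∀ r : ℝ, 0 < r → r ≤ r₀ →
    ∀ T : ℂ[X], T.natDegree ≤ d → Near d c₀ r T.coeff →
      ∃ t : ℂ, ‖t‖ ≤ r ^ σ ∧ (T + C t).natDegree = d ∧ ShiftLocus (T + C t) ∧
        Hyperbolic (T + C t)) ∧
  (∀ E : ℝ, 0 ≤ E → E < E₀ - 2 → ∃ K r₀ : ℝ, 0 < K ∧ 0 < r₀ ∧ ∀ r : ℝ, 0 < r → r ≤ r₀ →
    volume {a | a ∈ box d c₀ r ∧ ¬ ShiftLocus (poly a)} ≤
      ENNReal.ofReal (K * r ^ E) * volume (box d c₀ r))

/-- The polynomial `z ^ d + c`. -/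
def f (d : ℕ) (c : ℂ) : ℂ → ℂ := fun z => z ^ d + c

/-- The Collet-Eckmann condition with explicit constants: `c` lies in the Multibrot set (and is not
`-2` if `d = 2`), and the derivatives of the iterates of `f d c` at the critical value `c` grow at
least like `lam ^ n / C₁`. -/
def ColletEckmann (d : ℕ) (C₁ lam : ℝ) (c : ℂ) : Prop :=
  c ∈ N62a1eb23.multibrotSet d ∧ (d = 2 → c ≠ -2) ∧
    ∀ n : ℕ, lam ^ n ≤ C₁ * ‖deriv ((f d c)^[n]) c‖

/-- Near `z ^ d + c₀`, for every Collet-Eckmann parameter `c₀` of the Multibrot set, hyperbolic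
polynomials are dense and have full density in the space of all polynomials of degree `d`, with power
rates, which are sharp for harmonic-almost every boundary point `c₀`. -/
theorem result (d : ℕ) (hd : 2 ≤ d) :
    (∀ (C₁ lam : ℝ) (c₀ : ℂ), 1 ≤ C₁ → 1 < lam → ColletEckmann d C₁ lam c₀ →
      2 < 2 / (1 - Real.log lam / (d * Real.log (2 * d))) ∧
      DenseAt d c₀ (2 / (1 - Real.log lam / (d * Real.log (2 * d))))) ∧
    (∀ (C₁ lam C₂ β : ℝ) (c₀ : ℂ), 1 ≤ C₁ → 1 < lam → 0 ≤ β → ColletEckmann d C₁ lam c₀ →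
      (∀ n : ℕ, 1 ≤ C₂ * (‖(f d c₀)^[n] c₀‖ * ‖deriv ((f d c₀)^[n]) c₀‖ ^ β)) →
      DenseAt d c₀ (2 * d / ((d - 1) * (1 + β)))) ∧
    (∀ (χ : ℝ) (c₀ : ℂ), 0 < χ → c₀ ∈ N62a1eb23.multibrotSet d → (d = 2 → c₀ ≠ -2) →
      Tendsto (fun n : ℕ => Real.log ‖deriv ((f d c₀)^[n]) c₀‖ / n) atTop (𝓝 χ) →
      DenseAt d c₀ (2 * d / (d - 1)) ∧
      Tendsto (fun r : ℝ => Real.log (volume {t : ℂ | ‖t‖ < r ∧
        ¬ ShiftLocus (X ^ d + C (c₀ + t))}).toReal / Real.log r) (𝓝[>] 0) (𝓝 (2 * d / (d - 1)))) ∧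
    (∃ ψ : ℂ → ℂ, IsExteriorMap (N62a1eb23.multibrotSet d) ψ) ∧
    ∀ ψ : ℂ → ℂ, IsExteriorMap (N62a1eb23.multibrotSet d) ψ →
      ∀ᵐ θ : ℝ, ∃ c₀ ∈ frontier (N62a1eb23.multibrotSet d),
        Tendsto (fun r : ℝ => ψ (r * Complex.exp (θ * Complex.I))) (𝓝[>] 1) (𝓝 c₀) ∧
        Tendsto (fun n : ℕ => Real.log ‖deriv ((f d c₀)^[n]) c₀‖ / n) atTop (𝓝 (Real.log d)) ∧
        DenseAt d c₀ (2 * d / (d - 1)) := by
  have hdR : (2 : ℝ) ≤ d := by exact_mod_cast hd
  have hd1 : 0 < (d : ℝ) - 1 := by linarith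
  -- the common part
  have dense : ∀ (c₀ : ℂ) (E₀ : ℝ), ‖c₀‖ < 2 →
      (∀ E : ℝ, 0 ≤ E → E < E₀ → Pool.Agent.Y272.GA.AR d c₀ E) → DenseAt d c₀ E₀ := by
    intro c₀ E₀ hc hA
    refine ⟨?_, ?_, ?_⟩
    · intro E hE0 hE
      exact Pool.Agent.Y272.GA.st_area hd hc (hA E hE0 hE)
    · intro σ hσ1 hσ
      obtain ⟨r₀, hr₀, H⟩ := Pool.Agent.Y272.GA.st_sigma (E := σ + E₀ / 2) hd hc hσ1
        (by linarith) (hA _ (by linarith) (by linarith))
      refine ⟨min r₀ (1 / 2), lt_min hr₀ (by norm_num), ?_⟩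
      intro r hr hrr T hT hcl
      obtain ⟨t, ht1, ht2⟩ := H r hr (hrr.trans (min_le_left _ _)) T hT hcl
      refine ⟨t, ht1, ?_, ht2, fun c hc => Or.inl (ht2 c hc)⟩
      have hr2 : r ≤ 1 / 2 := hrr.trans (min_le_right _ _)
      have h1 : (T + C t).coeff d ≠ 0 := by
        intro h0
        have h2 := hcl d
        have h3 : (C c₀ : ℂ[X]).coeff d = 0 := by
          rw [coeff_C, if_neg (by omega)]
        have h4 : (C t : ℂ[X]).coeff d = 0 := by
          rw [coeff_C, if_neg (by omega)]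
        rw [coeff_add, h4, add_zero] at h0
        rw [h0, coeff_add, coeff_X_pow, if_pos rfl, h3, add_zero, zero_sub, norm_neg,
          norm_one] at h2
        linarith
      refine le_antisymm ?_ (le_natDegree_of_ne_zero h1)
      exact natDegree_add_le_of_degree_le hT (by rw [natDegree_C]; omega)
    · intro E hE0 hE
      exact Pool.Agent.Y272.GA.st_vol hd hc (hA _ (by linarith) (by linarith))
  -- parameters with a Lyapunov exponent
  have key : ∀ (χ : ℝ) (c₀ : ℂ), 0 < χ → c₀ ∈ N62a1eb23.multibrotSet d → (d = 2 → c₀ ≠ -2) →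
      Tendsto (fun n : ℕ => Real.log ‖deriv ((f d c₀)^[n]) c₀‖ / n) atTop (𝓝 χ) →
      DenseAt d c₀ (2 * d / (d - 1)) ∧
      Tendsto (fun r : ℝ => Real.log (volume {t : ℂ | ‖t‖ < r ∧
        ¬ ShiftLocus (X ^ d + C (c₀ + t))}).toReal / Real.log r) (𝓝[>] 0)
        (𝓝 (2 * d / (d - 1))) := by
    intro χ c₀ hχ hc₀ hne hlim
    have h : Pool.Agent.Y298.CA.Lyap d χ c₀ := ⟨hχ, hc₀, hlim⟩
    exact ⟨dense c₀ _ (Pool.Agent.Y272.GA.norm_lt_two hd hc₀ hne)
      fun E hE0 hE => Pool.Agent.Y272.GA.ar_lyap hd h hE0 hE, Pool.Agent.Y272.GA.st_opt hd h⟩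
  refine ⟨?_, ?_, key, ?_⟩
  · intro C₁ lam c₀ hC₁ hlam h
    have hce := Pool.Agent.Y298.SH.CD.cep_of_mem hd hC₁ hlam h.1 h.2.2
    have hlog : 0 < Real.log (2 * d) := Real.log_pos (by linarith)
    have hll : 0 < Real.log lam := Real.log_pos hlam
    have hle : Real.log lam ≤ Real.log (2 * d) := Real.log_le_log (by linarith) hce.lam_le
    have hq0 : 0 < Real.log lam / (d * Real.log (2 * d)) := by positivity
    have hq1 : Real.log lam / (d * Real.log (2 * d)) < 1 := by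
      rw [div_lt_one (by positivity)]
      nlinarith
    refine ⟨?_, dense c₀ _ (Pool.Agent.Y272.GA.norm_lt_two hd h.1 h.2.1) ?_⟩
    · rw [lt_div_iff₀ (by linarith)]
      linarith
    · intro E hE0 hE
      refine Pool.Agent.Y272.GA.ar_ce hce hE0 ?_
      rwa [lt_div_iff₀ (by linarith)] at hE
  · intro C₁ lam C₂ β c₀ hC₁ hlam hβ h hrec
    have hce := Pool.Agent.Y298.SH.CD.cep_of_mem hd hC₁ hlam h.1 h.2.2
    refine dense c₀ _ (Pool.Agent.Y272.GA.norm_lt_two hd h.1 h.2.1) ?_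
    intro E hE0 hE
    refine Pool.Agent.Y272.GA.ar_rec (C₂ := C₂) hce hrec hβ hE0 ?_
    rw [lt_div_iff₀ (by positivity)] at hE
    rw [lt_div_iff₀ hd1]
    linarith
  · obtain ⟨β, hβ⟩ := Pool.Agent.H713R2.exists_beta (d := d) hd
    refine ⟨⟨_, Pool.Agent.H713R2.exteriorMap_of_beta hβ⟩, ?_⟩
    intro ψ hψ
    filter_upwards [Pool.Agent.Y272.TY.ae_neg' (Pool.Agent.Y272.TY.typical_all hd hβ)] with θ hθ
    obtain ⟨c₀, A, R, h⟩ := hθ
    obtain ⟨h1, h2, h3⟩ := Pool.Agent.Y298.CA.lyap_of_typ hd hβ h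
    refine ⟨c₀, h.frontier hd hβ, h.tendsto_psi hβ hψ, h3, (key _ c₀ h1 h2 ?_ h3).1⟩
    rintro rfl rfl
    have h4 := Pool.Agent.Y272.GA.lyap_neg_two ⟨h1, h2, h3⟩
    have h5 := Real.log_injOn_pos (by norm_num : (((2 : ℕ) : ℝ)) ∈ Set.Ioi (0 : ℝ))
      (by norm_num : (4 : ℝ) ∈ Set.Ioi (0 : ℝ)) h4
    norm_num at h5

end Pool.Agent.Results.MP_28f8a1_an.ColletEckmannUnicritical
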