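import Mathlib
import Pool.Prelude.Def_F_c31e40fa
import Pool.Agent.Y272.EX.Exr
import Pool.Agent.Y270.EXF.ALO
import Pool.Agent.Y309.EXF.Trap

/-!
# Exact exponents in the space of all polynomials near typical unicritical polynomials

Let `d ≥ 2`, and let `c₀ ≠ -2` be a point of the Multibrot set `M_d` at which the critical value of
`f = z ^ d + c₀` has a positive Lyapunov exponent. This is so for harmonic-almost every boundary
point of `M_d`. We consider ALL polynomials `T` of degree `d` whose coefficients are within `r` of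
those of `f`; so the critical point of `f` of order `d - 1` splits, in general, into `d - 1` critical
points.

(1) In EVERY translation family `T + t`, `|t| ≤ K r`, the polynomials with a critical point which
does not escape have area `r ^ (2 d / (d - 1) + o(1))`, uniformly in `T`; there is a polynomial in
the family such that all polynomials within `r ^ (d / (d - 1) + ε)` of it have an attracting cycle
which attracts a critical point.

(2) In the space of coefficients (of real dimension `2 (d + 1)`) the volume of the polynomials within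
`r` of `f` with a critical point which does not escape is `r ^ (2 d ^ 2 / (d - 1) + o(1))`, and the
inradius of this set is `r ^ (d / (d - 1) + o(1))`. The same holds for the connectedness locus, and
for the hyperbolic polynomials which are not in the shift locus, and for the polynomials with a
cycle which attracts all critical points, and for all sets between.

Method: the upper bounds are those of `ColletEckmannUnicritical`. For the lower bounds, the critical
value of the polynomials `z ^ d + w + a z` with an arbitrary small perturbation `a` is followed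
through the passage near the critical orbit of `f`; Schottky's theorem gives a parameter `w` close to
`c₀` at which the critical point is periodic, and the size of the trap around it is estimated.
-/

set_option autoImplicit false

open MeasureTheory Filter Metric Topology Polynomial

namespace Pool.Agent.Results.MP_28f8a1_an.ExactVolume

open Pool.Agent.H713R2 (IsExteriorMap)

/-- The polynomial as a self-map of the plane. -/
def map (T : ℂ[X]) : ℂ → ℂ := fun z : ℂ => T.eval z

/-- The orbit of `z` escapes to infinity. -/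
def Escapes (T : ℂ[X]) (z : ℂ) : Prop :=
  Tendsto (fun k : ℕ => ‖(map T)^[k] z‖) atTop atTop

/-- The orbit of `z` is attracted by a sink of `T`. -/
def Attracted (T : ℂ[X]) (z : ℂ) : Prop :=
  ∃ n : ℕ, 0 < n ∧ ∃ x : ℂ, (map T)^[n] x = x ∧ ‖deriv ((map T)^[n]) x‖ < 1 ∧
    Tendsto (fun k : ℕ => (map T)^[n * k] z) atTop (𝓝 x)

/-- `T` is hyperbolic: every critical point escapes or is attracted by a sink. -/
def Hyperbolic (T : ℂ[X]) : Prop :=
  ∀ c : ℂ, T.derivative.eval c = 0 → Escapes T c ∨ Attracted T c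

/-- All critical points escape. -/
def ShiftLocus (T : ℂ[X]) : Prop := ∀ c : ℂ, T.derivative.eval c = 0 → Escapes T c

/-- No critical point escapes (so the Julia set is connected). -/
def Connected (T : ℂ[X]) : Prop := ∀ c : ℂ, T.derivative.eval c = 0 → ¬ Escapes T c

/-- A sink of `T` attracts a critical point. -/
def HasSink (T : ℂ[X]) : Prop := ∃ c : ℂ, T.derivative.eval c = 0 ∧ Attracted T c

/-- The iterates of all critical points along the multiples of the period of a sink tend to the same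
point of the sink. -/
def OneSink (T : ℂ[X]) : Prop :=
  ∃ n : ℕ, 0 < n ∧ ∃ x : ℂ, (map T)^[n] x = x ∧ ‖deriv ((map T)^[n]) x‖ < 1 ∧
    ∀ c : ℂ, T.derivative.eval c = 0 → Tendsto (fun k : ℕ => (map T)^[n * k] c) atTop (𝓝 x)

/-- `T` is of degree at most `d`, with coefficients within `r` of those of `T₀`. -/
def Close (d : ℕ) (r : ℝ) (T₀ T : ℂ[X]) : Prop :=
  T.natDegree ≤ d ∧ ∀ i : ℕ, ‖T.coeff i - T₀.coeff i‖ ≤ r

/-- The vectors of coefficients (of the degrees `0, …, d`) within `r` of those of `z ^ d + c₀`. -/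
def box (d : ℕ) (c₀ : ℂ) (r : ℝ) : Set (Fin (d + 1) → ℂ) :=
  {a | ∀ i : Fin (d + 1), ‖a i - (X ^ d + C c₀ : ℂ[X]).coeff i‖ ≤ r}

/-- The polynomial with the given coefficients. -/
noncomputable def poly {d : ℕ} (a : Fin (d + 1) → ℂ) : ℂ[X] :=
  ∑ i : Fin (d + 1), C (a i) * X ^ (i : ℕ)

/-- The part of the box where the polynomial has the property `P`. -/
def part (d : ℕ) (c₀ : ℂ) (r : ℝ) (P : ℂ[X] → Prop) : Set (Fin (d + 1) → ℂ) :=
  {a | a ∈ box d c₀ r ∧ P (poly a)}

/-- The inradius of a set of vectors (for the maximum norm). -/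
noncomputable def inradius {d : ℕ} (S : Set (Fin (d + 1) → ℂ)) : ℝ :=
  sSup {ρ : ℝ | 0 ≤ ρ ∧ ∃ a : Fin (d + 1) → ℂ, closedBall a ρ ⊆ S}

/-- `F r = r ^ (e + o(1))` as `r` tends to zero from the right. -/
def HasExponent (F : ℝ → ℝ) (e : ℝ) : Prop :=
  Tendsto (fun r : ℝ => Real.log (F r) / Real.log r) (𝓝[>] 0) (𝓝 e)

/-- A property of polynomials of degree `d` which is weaker than the existence of a sink
attracting all critical points, and stronger than the existence of a critical point which does not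
escape. -/
structure Between (d : ℕ) (P : ℂ[X] → Prop) : Prop where
  of_sink : ∀ T : ℂ[X], T.natDegree = d → OneSink T → P T
  not_shift : ∀ T : ℂ[X], T.natDegree = d → P T → ¬ ShiftLocus T

/-- The exact exponents at the polynomial `z ^ d + c₀`. -/
def ExactAt (d : ℕ) (c₀ : ℂ) : Prop :=
  (∀ ε : ℝ, 0 < ε → ∃ K r₀ : ℝ, 1 ≤ K ∧ 0 < r₀ ∧ ∀ r : ℝ, 0 < r → r ≤ r₀ →
    ∀ T : ℂ[X], Close d r (X ^ d + C c₀) T →
      (∃ t : ℂ, ‖t‖ ≤ K * r ∧ ∀ T' : ℂ[X],
        Close d (r ^ ((d : ℝ) / (d - 1) + ε)) (T + C t) T' → HasSink T') ∧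
      ENNReal.ofReal (r ^ (2 * (d : ℝ) / (d - 1) + ε)) ≤
        volume {t : ℂ | ‖t‖ ≤ K * r ∧ ¬ ShiftLocus (T + C t)} ∧
      volume {t : ℂ | ‖t‖ ≤ K * r ∧ ¬ ShiftLocus (T + C t)} ≤
        ENNReal.ofReal (r ^ (2 * (d : ℝ) / (d - 1) - ε))) ∧
  ∀ P : ℂ[X] → Prop, Between d P →
    HasExponent (fun r => (volume (part d c₀ r P)).toReal) (2 * (d : ℝ) ^ 2 / (d - 1)) ∧
    HasExponent (fun r => inradius (part d c₀ r P)) ((d : ℝ) / (d - 1))

/-- The polynomial `z ^ d + c`. -/
def f (d : ℕ) (c : ℂ) : ℂ → ℂ := fun z => z ^ d + c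

/-- Exact exponents of the area, of the volume and of the inradius of the connectedness locus, of the
complement of the shift locus, and of its hyperbolic part, in the space of all polynomials of degree
`d`, at every `z ^ d + c₀` whose critical value has a positive Lyapunov exponent. -/
theorem result (d : ℕ) (hd : 2 ≤ d) :
    (Between d OneSink ∧ Between d Connected ∧ Between d (fun T => ¬ ShiftLocus T) ∧
      Between d (fun T => Hyperbolic T ∧ ¬ ShiftLocus T)) ∧
    (∀ (χ : ℝ) (c₀ : ℂ), 0 < χ → c₀ ∈ N62a1eb23.multibrotSet d → (d = 2 → c₀ ≠ -2) →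
      Tendsto (fun n : ℕ => Real.log ‖deriv ((f d c₀)^[n]) c₀‖ / n) atTop (𝓝 χ) →
      ExactAt d c₀) ∧
    (∃ ψ : ℂ → ℂ, IsExteriorMap (N62a1eb23.multibrotSet d) ψ) ∧
    ∀ ψ : ℂ → ℂ, IsExteriorMap (N62a1eb23.multibrotSet d) ψ →
      ∀ᵐ θ : ℝ, ∃ c₀ ∈ frontier (N62a1eb23.multibrotSet d),
        Tendsto (fun r : ℝ => ψ (r * Complex.exp (θ * Complex.I))) (𝓝[>] 1) (𝓝 c₀) ∧
        Tendsto (fun n : ℕ => Real.log ‖deriv ((f d c₀)^[n]) c₀‖ / n) atTop (𝓝 (Real.log d)) ∧
        ExactAt d c₀ := by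
  have hA : Pool.Agent.Y272.EX.S_ALO :=
    Pool.Agent.Y270.EXF.ALO.t Pool.Agent.Y298.EX.low_all Pool.Agent.Y309.EXF.Trap.t
  have key : ∀ (χ : ℝ) (c₀ : ℂ), 0 < χ → c₀ ∈ N62a1eb23.multibrotSet d → (d = 2 → c₀ ≠ -2) →
      Tendsto (fun n : ℕ => Real.log ‖deriv ((f d c₀)^[n]) c₀‖ / n) atTop (𝓝 χ) →
      ExactAt d c₀ := by
    intro χ c₀ hχ hc₀ hne hlim
    have h : Pool.Agent.Y298.CA.Lyap d χ c₀ := ⟨hχ, hc₀, hlim⟩
    have hc := Pool.Agent.Y272.GA.norm_lt_two hd hc₀ hne
    refine ⟨?_, ?_⟩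
    · intro ε hε
      obtain ⟨K, r₀, hK, hr₀, H⟩ := Pool.Agent.Y272.EX.st_two hA hd hc h hε
      refine ⟨K, r₀, hK, hr₀, ?_⟩
      intro r hr hrr T hT
      obtain ⟨⟨t, ht, h1⟩, h2, h3⟩ := H r hr hrr T hT
      refine ⟨⟨t, ht, ?_⟩, h2, h3⟩
      intro T' hT'
      obtain ⟨n, hn, x, h4, h5, c, h6, h7⟩ := h1 T' hT'.1 hT'.2
      exact ⟨c, h6, n, hn, x, h4, h5, h7⟩
    · intro P hP
      have hB : Pool.Agent.Y272.EX.Btw d P := ⟨hP.of_sink, hP.not_shift⟩
      exact ⟨Pool.Agent.Y272.EX.st_exv Pool.Agent.Y272.EX.vlo hd hc h hB,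
        Pool.Agent.Y272.EX.st_exr Pool.Agent.Y272.EX.exr hd hc h hB⟩
  refine ⟨⟨?_, ?_, ?_, ?_⟩, key, ?_⟩
  · refine ⟨fun T _ h => h, fun T hT h hS => ?_⟩
    obtain ⟨c, hc⟩ := Pool.Agent.Y272.EX.exists_crit (T := T) (by omega)
    exact Pool.Agent.Y272.EX.OS_not_esc h hc (hS c hc)
  · refine ⟨fun T _ h c hc => Pool.Agent.Y272.EX.OS_not_esc h hc, fun T hT h hS => ?_⟩
    obtain ⟨c, hc⟩ := Pool.Agent.Y272.EX.exists_crit (T := T) (by omega)
    exact h c hc (hS c hc)
  · refine ⟨fun T hT h hS => ?_, fun T _ h => h⟩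
    obtain ⟨c, hc⟩ := Pool.Agent.Y272.EX.exists_crit (T := T) (by omega)
    exact Pool.Agent.Y272.EX.OS_not_esc h hc (hS c hc)
  · refine ⟨fun T hT h => ⟨fun c hc => Or.inr ?_, fun hS => ?_⟩, fun T _ h => h.2⟩
    · obtain ⟨n, hn, x, h1, h2, h3⟩ := h
      exact ⟨n, hn, x, h1, h2, h3 c hc⟩
    · obtain ⟨c, hc⟩ := Pool.Agent.Y272.EX.exists_crit (T := T) (by omega)
      exact Pool.Agent.Y272.EX.OS_not_esc h hc (hS c hc)
  · obtain ⟨β, hβ⟩ := Pool.Agent.H713R2.exists_beta (d := d) hd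
    refine ⟨⟨_, Pool.Agent.H713R2.exteriorMap_of_beta hβ⟩, ?_⟩
    intro ψ hψ
    filter_upwards [Pool.Agent.Y272.TY.ae_neg' (Pool.Agent.Y272.TY.typical_all hd hβ)] with θ hθ
    obtain ⟨c₀, A, R, h⟩ := hθ
    obtain ⟨h1, h2, h3⟩ := Pool.Agent.Y298.CA.lyap_of_typ hd hβ h
    refine ⟨c₀, h.frontier hd hβ, h.tendsto_psi hβ hψ, h3, key _ c₀ h1 h2 ?_ h3⟩
    rintro rfl rfl
    have h4 := Pool.Agent.Y272.GA.lyap_neg_two ⟨h1, h2, h3⟩
    have h5 := Real.log_injOn_pos (by norm_num : (((2 : ℕ) : ℝ)) ∈ Set.Ioi (0 : ℝ))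
      (by norm_num : (4 : ℝ) ∈ Set.Ioi (0 : ℝ)) h4
    norm_num at h5

end Pool.Agent.Results.MP_28f8a1_an.ExactVolume
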