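import Mathlib
import Pool.Agent.Y334.FN.Unif
import Pool.Agent.Y334.FN.Pt

/-!
# Over which dynamical systems are the hyperbolic fibered polynomials dense?

A fibered polynomial over `T : B → B` is a map `(x, z) ↦ (T x, P x (z))` of `B × ℂ`, where the
coefficients of the polynomials `P x` depend continuously on `x`. Over the one-point base these are
the polynomials, and the question of the density of the hyperbolic ones is the problem itself.
-/

set_option autoImplicit false

open Polynomial Filter Topology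

namespace Pool.Agent.Results.MP_28f8a1_an.FiberedPolynomials

/-- The polynomial as a self-map of the plane. -/
def map (T : ℂ[X]) : ℂ → ℂ := fun w : ℂ => T.eval w

/-- The orbit of `z` escapes to infinity. -/
def Escapes (T : ℂ[X]) (z : ℂ) : Prop :=
  Tendsto (fun k : ℕ => ‖(map T)^[k] z‖) atTop atTop

/-- The orbit of `z` is attracted by an attracting periodic point `x` of `T`. -/
def Attracted (T : ℂ[X]) (z : ℂ) : Prop :=
  ∃ n : ℕ, 0 < n ∧ ∃ x : ℂ, (map T)^[n] x = x ∧ ‖deriv ((map T)^[n]) x‖ < 1 ∧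
    Tendsto (fun k : ℕ => (map T)^[n * k] z) atTop (𝓝 x)

/-- `T` is hyperbolic: every critical point escapes or is attracted by an attracting periodic point.
This is word for word the condition of the frozen statement `S04139`. -/
def Hyperbolic (T : ℂ[X]) : Prop :=
  ∀ c : ℂ, (derivative T).eval c = 0 → Escapes T c ∨ Attracted T c

/-- Q1, word for word as in the frozen statement `S04139`: the hyperbolic polynomials of degree `d`
are dense among all the polynomials of degree `d`, for every `d ≥ 2`. -/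
def Q1 : Prop :=
  ∀ T : ℂ[X], 2 ≤ T.natDegree → ∀ ε : ℝ, 0 < ε → ∃ S : ℂ[X], S.natDegree = T.natDegree ∧
    (∀ i : ℕ, ‖S.coeff i - T.coeff i‖ < ε) ∧ Hyperbolic S

/-- The fibre iterates `P (T^[k-1] x) ∘ ... ∘ P (T x) ∘ P x` of the fibered polynomial
`(x, z) ↦ (T x, P x (z))`. -/
noncomputable def fibre {B : Type} (T : B → B) (P : B → ℂ[X]) : ℕ → B → ℂ → ℂ
  | 0, _, z => z
  | k + 1, x, z => (P (T^[k] x)).eval (fibre T P k x z)

/-- The post-critical set of the fibered polynomial: the forward orbits of all critical values. -/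
def postCritical {B : Type} (T : B → B) (P : B → ℂ[X]) : Set (B × ℂ) :=
  {p | ∃ y c k, 1 ≤ k ∧ (derivative (P y)).eval c = 0 ∧ p = (T^[k] y, fibre T P k y c)}

/-- In the fibre over `x`, the `k`-th iterate contracts the disc of radius `r` around `v` by the
factor `K * lam ^ k`. -/
def Contracts {B : Type} (T : B → B) (P : B → ℂ[X]) (r K lam : ℝ) (x : B) (v : ℂ) (k : ℕ) : Prop :=
  ∀ z z', ‖z - v‖ < r → ‖z' - v‖ < r →
    ‖fibre T P k x z - fibre T P k x z'‖ ≤ K * lam ^ k * ‖z - z'‖

/-- Hyperbolicity of the fibered polynomial, with explicit constants: every point `p` of the closure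
of the post-critical set has a neighbourhood `W` of its base point such that in every fibre over `W`
the disc of radius `r` around `p.2` is contracted exponentially by all iterates, or by all iterates
before some time from which on it escapes to infinity exponentially fast. -/
def HyperbolicWith {B : Type} [TopologicalSpace B] (T : B → B) (P : B → ℂ[X]) (r K lam : ℝ) :
    Prop :=
  ∀ p ∈ closure (postCritical T P), ∃ W ∈ 𝓝 p.1, ∀ x ∈ W,
    (∀ k, Contracts T P r K lam x p.2 k) ∨
    ∃ k₀, (∀ k < k₀, Contracts T P r K lam x p.2 k) ∧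
      ∀ k z, ‖z - p.2‖ < r → 2 ^ k ≤ ‖fibre T P (k₀ + k) x z‖

/-- Hyperbolicity of the fibered polynomial `(x, z) ↦ (T x, P x (z))`. -/
def FiberHyperbolic {B : Type} [TopologicalSpace B] (T : B → B) (P : B → ℂ[X]) : Prop :=
  ∃ r K lam : ℝ, 0 < r ∧ 0 < lam ∧ lam < 1 ∧ HyperbolicWith T P r K lam

/-- The coefficients of the polynomials `P x` depend continuously on `x`. -/
def ContCoeff {B : Type} [TopologicalSpace B] (P : B → ℂ[X]) : Prop :=
  ∀ k, Continuous fun x => (P x).coeff k

/-- The hyperbolic fibered polynomials of degree `d` over `T` are dense among all fibered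
polynomials of degree `d` over `T`, for the uniform distance of the coefficients. -/
def DenseHyperbolic {B : Type} [TopologicalSpace B] (T : B → B) (d : ℕ) : Prop :=
  ∀ P : B → ℂ[X], ContCoeff P → (∀ x, (P x).natDegree = d) → ∀ ε : ℝ, 0 < ε →
    ∃ P' : B → ℂ[X], ContCoeff P' ∧ (∀ x, (P' x).natDegree = d) ∧
      (∀ x k, ‖(P' x).coeff k - (P x).coeff k‖ < ε) ∧ FiberHyperbolic T P'

/-- `P` has degree between `2` and `d`, coefficients of modulus at most `A` and a leading coefficient
of modulus at least `1 / A`. -/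
def Bounded (d : ℕ) (A : ℝ) (P : ℂ[X]) : Prop :=
  2 ≤ P.natDegree ∧ P.natDegree ≤ d ∧ (∀ j, ‖P.coeff j‖ ≤ A) ∧ 1 / A ≤ ‖P.leadingCoeff‖

/-- The composition `U (n - 1) ∘ ... ∘ U 1 ∘ U 0`. -/
noncomputable def comp (U : ℕ → ℂ[X]) : ℕ → ℂ[X]
  | 0 => X
  | n + 1 => (U n).comp (comp U n)

theorem fibre_eq {B : Type} (T : B → B) (P : B → ℂ[X]) (k : ℕ) (x : B) (z : ℂ) :
    fibre T P k x z = Pool.Agent.Y334.FN.fib T P k x z := by
  induction k with
  | zero => rfl
  | succ k ih =>
    show (P _).eval (fibre T P k x z) = (P _).eval (Pool.Agent.Y334.FN.fib T P k x z)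
    rw [ih]

theorem hyp_iff {B : Type} [TopologicalSpace B] (T : B → B) (P : B → ℂ[X]) (r K lam : ℝ) :
    HyperbolicWith T P r K lam ↔ Pool.Agent.Y334.FN.HypP T P r K lam := by
  have hPC : postCritical T P = Pool.Agent.Y334.FN.PCp T P := by
    ext p
    constructor
    · rintro ⟨y, c, k, h1, h2, h3⟩
      exact ⟨y, c, k, h1, h2, by rw [h3, fibre_eq]⟩
    · rintro ⟨y, c, k, h1, h2, h3⟩
      exact ⟨y, c, k, h1, h2, by rw [h3, fibre_eq]⟩
  unfold HyperbolicWith Pool.Agent.Y334.FN.HypP
  rw [hPC]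
  simp only [Contracts, Pool.Agent.Y334.FN.Con, fibre_eq]

theorem comp_eq (U : ℕ → ℂ[X]) (n : ℕ) : comp U n = Pool.Agent.Y334.FN.cmp U n := by
  induction n with
  | zero => rfl
  | succ n ih => rw [comp, Pool.Agent.Y334.FN.cmp, ih]

theorem point_iff {P : ℂ[X]} (hP : 2 ≤ P.natDegree) :
    FiberHyperbolic (id : Unit → Unit) (fun _ => P) ↔ Hyperbolic P := by
  constructor
  · rintro ⟨r, K, lam, hr, hl0, hl1, h⟩ c hc
    have h1 := Pool.Agent.Y334.FN.hyp_of_per hr hl0 hl1 ((hyp_iff _ _ _ _ _).1 h) (fun _ => hP)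
      (le_refl 1) (x₀ := ()) rfl
    have h2 : Pool.Agent.Y334.FN.cmp (fun _ => P) 1 = P := by
      simp [Pool.Agent.Y334.FN.cmp]
    rw [h2] at h1
    exact h1 c hc
  · intro h
    obtain ⟨r, K, lam, hr, hl0, hl1, h1⟩ := Pool.Agent.Y334.FN.hyp_pt hP h
    exact ⟨r, K, lam, hr, hl0, hl1, (hyp_iff _ _ _ _ _).2 h1⟩

/-- **Density of hyperbolicity for fibered polynomials.**

(I) Over the one-point base fibered hyperbolicity is hyperbolicity, and the density of the
hyperbolic fibered polynomials of all degrees `d ≥ 2` is Q1.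

(II) For every minimal homeomorphism `T` of an INFINITE compact Hausdorff space `B` and every
`d ≥ 2`, the hyperbolic fibered polynomials of degree `d` over `T` are dense if and only if `B` is
totally disconnected.

(III) More generally, let `T` be a homeomorphism without periodic points of a compact totally
disconnected Hausdorff space `B`. Then every fibered polynomial over `T` (of locally constant degree
at least two) becomes hyperbolic after adding arbitrarily small, locally constant functions to the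
constant terms of its polynomials.

(IV) Let `T` be a continuous self-map of a compact Hausdorff space having an infinite minimal set
`Y` which is not totally disconnected. Then for no `d ≥ 2` the hyperbolic fibered polynomials of
degree `d` over `T` are dense.

(V) Uniformity. Given `d`, `A` and `ε` there are a finite set `S` of numbers of modulus less than
`ε` and `n₀`, `r`, `K`, `lam` such that the following holds for all families of polynomials with
degrees in `[2, d]`, coefficients bounded by `A` and leading coefficients bounded from below by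
`1 / A`.
(1) Over every compact totally disconnected space and every homeomorphism all of whose periods are
at least `n₀`, the family becomes hyperbolic, with the constants `r`, `K`, `lam`, after adding a
function with values in `S` to the constant terms.
(2) For every `n ≥ n₀` and all polynomials `P 0, ..., P (n - 1)` there are `s i` in `S` for which
the polynomial `(P (n - 1) + s (n - 1)) ∘ ... ∘ (P 0 + s 0)` is hyperbolic.
(3) Every two-sided sequence of polynomials becomes uniformly hyperbolic after adding numbers from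
`S`. (4) The same for one-sided sequences. -/
theorem result :
    -- (I)
    ((∀ P : ℂ[X], 2 ≤ P.natDegree →
        (FiberHyperbolic (id : Unit → Unit) (fun _ => P) ↔ Hyperbolic P)) ∧
      ((∀ d : ℕ, 2 ≤ d → DenseHyperbolic (id : Unit → Unit) d) ↔ Q1)) ∧
    -- (II)
    (∀ (B : Type) [TopologicalSpace B] [CompactSpace B] [T2Space B] [Infinite B] (T : B ≃ₜ B),
      (∀ x : B, Dense (Set.range fun k : ℕ => (⇑T)^[k] x)) → ∀ d : ℕ, 2 ≤ d →
      (DenseHyperbolic (⇑T) d ↔ TotallyDisconnectedSpace B)) ∧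
    -- (III)
    (∀ (B : Type) [TopologicalSpace B] [CompactSpace B] [T2Space B] [TotallyDisconnectedSpace B]
      (T : B ≃ₜ B), (∀ x : B, ∀ k : ℕ, 1 ≤ k → (⇑T)^[k] x ≠ x) →
      ∀ P : B → ℂ[X], ContCoeff P → IsLocallyConstant (fun x => (P x).natDegree) →
      (∀ x, 2 ≤ (P x).natDegree) → ∀ ε : ℝ, 0 < ε →
      ∃ s : B → ℂ, IsLocallyConstant s ∧ (∀ x, ‖s x‖ < ε) ∧
        FiberHyperbolic (⇑T) fun x => P x + C (s x)) ∧
    -- (IV)
    (∀ (B : Type) [TopologicalSpace B] [CompactSpace B] [T2Space B] (T : B → B), Continuous T →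
      ∀ Y : Set B, IsClosed Y → Set.MapsTo T Y Y →
      (∀ x ∈ Y, Y ⊆ closure (Set.range fun k : ℕ => T^[k] x)) → Y.Infinite →
      ¬ IsTotallyDisconnected Y → ∀ d : ℕ, 2 ≤ d → ¬ DenseHyperbolic T d) ∧
    -- (V)
    ∀ (d : ℕ) (A ε : ℝ), 1 ≤ A → 0 < ε →
      ∃ (S : Finset ℂ) (n₀ : ℕ) (r K lam : ℝ), (∀ t ∈ S, ‖t‖ < ε) ∧ 0 < r ∧ 0 < lam ∧ lam < 1 ∧
      (∀ (B : Type) [TopologicalSpace B] [CompactSpace B] [T2Space B] [TotallyDisconnectedSpace B]
        (T : B ≃ₜ B), (∀ x : B, ∀ k : ℕ, 1 ≤ k → k < n₀ → (⇑T)^[k] x ≠ x) →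
        ∀ P : B → ℂ[X], ContCoeff P → (∀ x, Bounded d A (P x)) →
        ∃ s : B → ℂ, IsLocallyConstant s ∧ (∀ x, s x ∈ S) ∧
          HyperbolicWith (⇑T) (fun x => P x + C (s x)) r K lam) ∧
      (∀ n : ℕ, n₀ ≤ n → ∀ P : ℕ → ℂ[X], (∀ i < n, Bounded d A (P i)) →
        ∃ s : ℕ → ℂ, (∀ i < n, s i ∈ S) ∧ Hyperbolic (comp (fun i => P i + C (s i)) n) ∧
          (comp (fun i => P i + C (s i)) n).natDegree =
            ∏ i ∈ Finset.range n, (P i).natDegree) ∧
      (∀ P : ℤ → ℂ[X], (∀ i, Bounded d A (P i)) → ∃ s : ℤ → ℂ, (∀ i, s i ∈ S) ∧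
        HyperbolicWith (fun i => i + 1) (fun i => P i + C (s i)) r K lam) ∧
      (∀ P : ℕ → ℂ[X], (∀ i, Bounded d A (P i)) → ∃ s : ℕ → ℂ, (∀ i, s i ∈ S) ∧
        HyperbolicWith (fun i => i + 1) (fun i => P i + C (s i)) r K lam) := by
  have hdense : ∀ {B : Type} [TopologicalSpace B] (T : B → B) (d : ℕ),
      DenseHyperbolic T d ↔ ∀ g : B → ℂ[X], (∀ k, Continuous fun x => (g x).coeff k) →
        (∀ x, (g x).natDegree = d) → ∀ ε : ℝ, 0 < ε → ∃ g' : B → ℂ[X],
          (∀ k, Continuous fun x => (g' x).coeff k) ∧ (∀ x, (g' x).natDegree = d) ∧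
          (∀ x j, ‖(g' x).coeff j - (g x).coeff j‖ < ε) ∧
          ∃ r C lam : ℝ, 0 < r ∧ 0 < lam ∧ lam < 1 ∧ Pool.Agent.Y334.FN.HypP T g' r C lam := by
    intro B _ T d
    simp only [DenseHyperbolic, FiberHyperbolic, hyp_iff, ContCoeff]
  have hlc : ∀ {B : Type} [TopologicalSpace B] {s : B → ℂ}, Pool.Agent.Y334.FS.LC s →
      IsLocallyConstant s := fun h => (IsLocallyConstant.iff_eventually_eq _).2 h
  refine ⟨⟨fun P hP => point_iff hP, ?_, ?_⟩, ?_, ?_, ?_, ?_⟩
  · intro h P hP ε hε
    obtain ⟨P', -, h2, h3, h4⟩ := h P.natDegree hP (fun _ => P) (fun k => continuous_const)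
      (fun _ => rfl) ε hε
    refine ⟨P' (), h2 (), h3 (), ?_⟩
    rw [← point_iff (by rw [h2]; exact hP)]
    exact h4
  · intro h d hd P _ hdeg ε hε
    obtain ⟨P', h1, h2, h3⟩ := h (P ()) (by rw [hdeg]; exact hd) ε hε
    refine ⟨fun _ => P', fun k => continuous_const, fun _ => by rw [h1, hdeg], fun _ => h2, ?_⟩
    exact (point_iff (by rw [h1, hdeg]; exact hd)).2 h3
  · intro B _ _ _ _ T hT d hd
    rw [hdense]
    exact Pool.Agent.Y334.FN.minimal_iff T hT hd
  · intro B _ _ _ _ T hT P hc hlcd h2 ε hε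
    obtain ⟨s, r, K, lam, h3, h4, hr, hl0, hl1, h5⟩ :=
      Pool.Agent.Y334.FN.dens T hT hc hlcd h2 hε
    exact ⟨s, hlc h3, h4, r, K, lam, hr, hl0, hl1, (hyp_iff _ _ _ _ _).2 h5⟩
  · intro B _ _ _ T hT Y hYc hY hmin hinf htd d hd h
    rw [hdense] at h
    obtain ⟨g, δ, hδ, h1, h2, h3⟩ := Pool.Agent.Y334.FN.robust hT hYc hY hmin hinf htd hd
    obtain ⟨g', h4, h5, h6, r, K, lam, hr, hl0, hl1, h7⟩ := h g h1 h2 δ hδ
    exact h3 g' h4 h5 h6 r K lam hr hl0 hl1 h7
  · intro d A ε hA hε
    obtain ⟨S, n₀, r, K, lam, hS, hr, -, hl0, hl1, h1, h2, h3, h4⟩ :=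
      Pool.Agent.Y334.FN.unif d hA hε
    refine ⟨S, n₀, r, K, lam, hS, hr, hl0, hl1, ?_, ?_, ?_, ?_⟩
    · intro B _ _ _ _ T hT P hc hB
      obtain ⟨s, h5, h6, h7⟩ := h1 B T hT P hc hB
      exact ⟨s, hlc h5, h6, (hyp_iff _ _ _ _ _).2 h7⟩
    · intro n hn P hB
      obtain ⟨s, h5, h6, h7⟩ := h2 n hn P hB
      rw [← comp_eq] at h6 h7
      exact ⟨s, h5, h6, h7⟩
    · intro P hB
      obtain ⟨s, h5, h6⟩ := h3 P hB
      exact ⟨s, h5, (hyp_iff _ _ _ _ _).2 h6⟩
    · intro P hB
      obtain ⟨s, h5, h6⟩ := h4 P hB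
      exact ⟨s, h5, (hyp_iff _ _ _ _ _).2 h6⟩

end Pool.Agent.Results.MP_28f8a1_an.FiberedPolynomials
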