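import Mathlib
import Pool.Agent.Y334.ST.Main
import Pool.Agent.Y334.ST.Quant
import Pool.Agent.Y334.ST.Cyc

/-!
# Stable fibered polynomials over systems without periodic points are hyperbolic

A fibered polynomial over `T : B → B` is a map `(x, z) ↦ (T x, P x (z))` of `B × ℂ`, where the
coefficients of the polynomials `P x` depend continuously on `x`. It is called stable if the escape
pattern of its critical points does not change under small perturbations. Over the one-point base
the statement that the stable maps are hyperbolic implies the density of hyperbolicity.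
-/

set_option autoImplicit false

open Polynomial Filter Topology

namespace Pool.Agent.Results.MP_28f8a1_an.StableIsHyperbolic

/-- The polynomial as a self-map of the plane. -/
def map (T : ℂ[X]) : ℂ → ℂ := fun w : ℂ => T.eval w

/-- The orbit of `z` escapes to infinity. -/
def Escapes (T : ℂ[X]) (z : ℂ) : Prop :=
  Tendsto (fun k : ℕ => ‖(map T)^[k] z‖) atTop atTop

/-- The orbit of `z` is attracted by an attracting periodic point `x` of `T`. -/
def Attracted (T : ℂ[X]) (z : ℂ) : Prop :=
  ∃ n : ℕ, 0 < n ∧ ∃ x : ℂ, (map T)^[n] x = x ∧ ‖deriv ((map T)^[n]) x‖ < 1 ∧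
    Tendsto (fun k : ℕ => (map T)^[n * k] z) atTop (𝓝 x)

/-- `T` is hyperbolic: every critical point escapes or is attracted by an attracting periodic point.
This is word for word the condition of the frozen statement `S04139`. -/
def Hyperbolic (T : ℂ[X]) : Prop :=
  ∀ c : ℂ, (derivative T).eval c = 0 → Escapes T c ∨ Attracted T c

/-- Q1, word for word as in the frozen statement `S04139`: the hyperbolic polynomials of degree `d`
are dense among all the polynomials of degree `d`, for every `d ≥ 2`. -/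
def Q1 : Prop :=
  ∀ T : ℂ[X], 2 ≤ T.natDegree → ∀ ε : ℝ, 0 < ε → ∃ S : ℂ[X], S.natDegree = T.natDegree ∧
    (∀ i : ℕ, ‖S.coeff i - T.coeff i‖ < ε) ∧ Hyperbolic S

/-- The fibre iterates `P (T^[k-1] x) ∘ ... ∘ P (T x) ∘ P x` of the fibered polynomial
`(x, z) ↦ (T x, P x (z))`. -/
noncomputable def fibre {B : Type} (T : B → B) (P : B → ℂ[X]) : ℕ → B → ℂ → ℂ
  | 0, _, z => z
  | k + 1, x, z => (P (T^[k] x)).eval (fibre T P k x z)

/-- The post-critical set of the fibered polynomial: the forward orbits of all critical values. -/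
def postCritical {B : Type} (T : B → B) (P : B → ℂ[X]) : Set (B × ℂ) :=
  {p | ∃ y c k, 1 ≤ k ∧ (derivative (P y)).eval c = 0 ∧ p = (T^[k] y, fibre T P k y c)}

/-- In the fibre over `x`, the `k`-th iterate contracts the disc of radius `r` around `v` by the
factor `K * lam ^ k`. -/
def Contracts {B : Type} (T : B → B) (P : B → ℂ[X]) (r K lam : ℝ) (x : B) (v : ℂ) (k : ℕ) : Prop :=
  ∀ z z', ‖z - v‖ < r → ‖z' - v‖ < r →
    ‖fibre T P k x z - fibre T P k x z'‖ ≤ K * lam ^ k * ‖z - z'‖

/-- Hyperbolicity of the fibered polynomial, with explicit constants: every point `p` of the closure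
of the post-critical set has a neighbourhood `W` of its base point such that in every fibre over `W`
the disc of radius `r` around `p.2` is contracted exponentially by all iterates, or by all iterates
before some time from which on it escapes to infinity exponentially fast. -/
def HyperbolicWith {B : Type} [TopologicalSpace B] (T : B → B) (P : B → ℂ[X]) (r K lam : ℝ) :
    Prop :=
  ∀ p ∈ closure (postCritical T P), ∃ W ∈ 𝓝 p.1, ∀ x ∈ W,
    (∀ k, Contracts T P r K lam x p.2 k) ∨
    ∃ k₀, (∀ k < k₀, Contracts T P r K lam x p.2 k) ∧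
      ∀ k z, ‖z - p.2‖ < r → 2 ^ k ≤ ‖fibre T P (k₀ + k) x z‖

/-- Hyperbolicity of the fibered polynomial `(x, z) ↦ (T x, P x (z))`. -/
def FiberHyperbolic {B : Type} [TopologicalSpace B] (T : B → B) (P : B → ℂ[X]) : Prop :=
  ∃ r K lam : ℝ, 0 < r ∧ 0 < lam ∧ lam < 1 ∧ HyperbolicWith T P r K lam

/-- The orbit of the point `(x, z)` escapes to infinity. -/
def EscapesFrom {B : Type} (T : B → B) (P : B → ℂ[X]) (x : B) (z : ℂ) : Prop :=
  Tendsto (fun k : ℕ => ‖fibre T P k x z‖) atTop atTop

/-- Stability for perturbations smaller than `ε`: adding a continuous function `s` of modulus less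
than `ε` to the constant terms (which does not move the critical points) does not change the set of
the critical points `(x, c)` whose orbits escape. -/
def StableWith {B : Type} [TopologicalSpace B] (T : B → B) (P : B → ℂ[X]) (ε : ℝ) : Prop :=
  ∀ s : B → ℂ, Continuous s → (∀ x, ‖s x‖ < ε) → ∀ x c, (derivative (P x)).eval c = 0 →
    (EscapesFrom T (fun x => P x + C (s x)) x c ↔ EscapesFrom T P x c)

/-- Stability: small continuous perturbations of the constant terms do not change the set of the
critical points `(x, c)` whose orbits escape. -/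
def Stable {B : Type} [TopologicalSpace B] (T : B → B) (P : B → ℂ[X]) : Prop :=
  ∃ ε : ℝ, 0 < ε ∧ StableWith T P ε

/-- The coefficients of the polynomials `P x` depend continuously on `x`. -/
def ContCoeff {B : Type} [TopologicalSpace B] (P : B → ℂ[X]) : Prop :=
  ∀ k, Continuous fun x => (P x).coeff k

/-- `P` has degree between `2` and `d`, coefficients of modulus at most `A` and a leading coefficient
of modulus at least `1 / A`. -/
def Bounded (d : ℕ) (A : ℝ) (P : ℂ[X]) : Prop :=
  2 ≤ P.natDegree ∧ P.natDegree ≤ d ∧ (∀ j, ‖P.coeff j‖ ≤ A) ∧ 1 / A ≤ ‖P.leadingCoeff‖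

/-- The stable fibered polynomials of degree `d` over `T` are dense among all fibered polynomials of
degree `d` over `T`, for the uniform distance of the coefficients. -/
def DenseStable {B : Type} [TopologicalSpace B] (T : B → B) (d : ℕ) : Prop :=
  ∀ P : B → ℂ[X], ContCoeff P → (∀ x, (P x).natDegree = d) → ∀ ε : ℝ, 0 < ε →
    ∃ P' : B → ℂ[X], ContCoeff P' ∧ (∀ x, (P' x).natDegree = d) ∧
      (∀ x k, ‖(P' x).coeff k - (P x).coeff k‖ < ε) ∧ Stable T P'

/-- The composition `U (n - 1) ∘ ... ∘ U 1 ∘ U 0`. -/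
noncomputable def comp (U : ℕ → ℂ[X]) : ℕ → ℂ[X]
  | 0 => X
  | n + 1 => (U n).comp (comp U n)

/-- The product of `T` with the cyclic rotation of order `n`. The perturbations over this system are
the `n`-periodic perturbations. -/
def cyc {B : Type} (T : B → B) (n : ℕ) : B × ZMod n → B × ZMod n := fun p => (T p.1, p.2 + 1)

theorem fibre_eq {B : Type} (T : B → B) (P : B → ℂ[X]) (k : ℕ) (x : B) (z : ℂ) :
    fibre T P k x z = Pool.Agent.Y334.FN.fib T P k x z := by
  induction k with
  | zero => rfl
  | succ k ih =>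
    show (P _).eval (fibre T P k x z) = (P _).eval (Pool.Agent.Y334.FN.fib T P k x z)
    rw [ih]

theorem hyp_iff {B : Type} [TopologicalSpace B] (T : B → B) (P : B → ℂ[X]) (r K lam : ℝ) :
    HyperbolicWith T P r K lam ↔ Pool.Agent.Y334.FN.HypP T P r K lam := by
  have hPC : postCritical T P = Pool.Agent.Y334.FN.PCp T P := by
    ext p
    constructor
    · rintro ⟨y, c, k, h1, h2, h3⟩
      exact ⟨y, c, k, h1, h2, by rw [h3, fibre_eq]⟩
    · rintro ⟨y, c, k, h1, h2, h3⟩
      exact ⟨y, c, k, h1, h2, by rw [h3, fibre_eq]⟩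
  unfold HyperbolicWith Pool.Agent.Y334.FN.HypP
  rw [hPC]
  simp only [Contracts, Pool.Agent.Y334.FN.Con, fibre_eq]

theorem fhyp_iff {B : Type} [TopologicalSpace B] (T : B → B) (P : B → ℂ[X]) :
    FiberHyperbolic T P ↔ Pool.Agent.Y334.ST.HypE T P := by
  simp only [FiberHyperbolic, Pool.Agent.Y334.ST.HypE, hyp_iff]

theorem stableWith_iff {B : Type} [TopologicalSpace B] (T : B → B) (P : B → ℂ[X]) (ε : ℝ) :
    StableWith T P ε ↔ Pool.Agent.Y334.ST.Stb T P ε := by
  simp only [StableWith, Pool.Agent.Y334.ST.Stb, EscapesFrom,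
    Pool.Agent.Y334.ST.EscF, Pool.Agent.Y334.ST.sh, fibre_eq]
  rfl

theorem stable_iff {B : Type} [TopologicalSpace B] (T : B → B) (P : B → ℂ[X]) :
    Stable T P ↔ Pool.Agent.Y334.ST.StbE T P := by
  simp only [Stable, Pool.Agent.Y334.ST.StbE, stableWith_iff]

theorem comp_eq (U : ℕ → ℂ[X]) (n : ℕ) : comp U n = Pool.Agent.Y334.FN.cmp U n := by
  induction n with
  | zero => rfl
  | succ n ih => rw [comp, Pool.Agent.Y334.FN.cmp, ih]

theorem point_iff {P : ℂ[X]} (hP : 2 ≤ P.natDegree) :
    FiberHyperbolic (id : Unit → Unit) (fun _ => P) ↔ Hyperbolic P := by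
  constructor
  · rintro ⟨r, K, lam, hr, hl0, hl1, h⟩ c hc
    have h1 := Pool.Agent.Y334.FN.hyp_of_per hr hl0 hl1 ((hyp_iff _ _ _ _ _).1 h) (fun _ => hP)
      (le_refl 1) (x₀ := ()) rfl
    have h2 : Pool.Agent.Y334.FN.cmp (fun _ => P) 1 = P := by
      simp [Pool.Agent.Y334.FN.cmp]
    rw [h2] at h1
    exact h1 c hc
  · intro h
    obtain ⟨r, K, lam, hr, hl0, hl1, h1⟩ := Pool.Agent.Y334.FN.hyp_pt hP h
    exact ⟨r, K, lam, hr, hl0, hl1, (hyp_iff _ _ _ _ _).2 h1⟩

/-- **Stable fibered polynomials over systems without periodic points are hyperbolic.**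

(I) Over the one-point base fibered hyperbolicity is hyperbolicity, and if all stable polynomials
were hyperbolic then Q1 would hold.

(II) Let `T` be a continuous self-map without periodic points of a normal Hausdorff space `B` (of any
dimension), and let the fibered polynomial have bounded coefficients, leading coefficients bounded
from below and bounded degrees, all at least two. Then it is hyperbolic if and only if it is stable.

(III) This applies to all fibered polynomials of locally constant degree at least two over a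
continuous self-map without periodic points of a compact Hausdorff space.

(IV) For a minimal homeomorphism `T` of an infinite compact Hausdorff space `B` and `d ≥ 2` the
stable fibered polynomials of degree `d` over `T` are dense if and only if `B` is totally
disconnected.

(V) Uniformity. Given `d`, `A` and `ε` there are `n₀`, `r`, `K` and `lam` with the following
properties. (1) Over every continuous self-map, all of whose periods are at least `n₀`, of a normal
Hausdorff space, the `ε`-stable fibered polynomials bounded by `d` and `A` are hyperbolic with the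
constants `r`, `K` and `lam`. (2) If `n ≥ n₀` and the cyclic sequence `P 0, ..., P (n - 1)` of
polynomials bounded by `d` and `A` is `ε`-stable, then `P (n - 1) ∘ ... ∘ P 0` is hyperbolic.

(VI) Conversely, given `d`, `A` and `r`, `K`, `lam` there is `ε > 0` such that over every self-map of
every topological space the fibered polynomials bounded by `d` and `A` which are hyperbolic with
the constants `r`, `K` and `lam` are `ε`-stable.

(VII) Over an arbitrary base hyperbolicity is stability under the `n`-periodic perturbations, for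
all `n` or for unboundedly many `n`.

(VIII) In particular a polynomial of degree at least two is hyperbolic, in the sense of the frozen
statement `S04139`, if and only if it is stable under the `n`-periodic perturbations smaller than
some `ε > 0`, for all `n` or for unboundedly many `n`.

(IX) The rate: it is enough that the perturbations of size `C log n / n` for one `n` do not change
the escape pattern, where `C` depends only on `d` and `A`. -/
theorem result :
    -- (I)
    ((∀ P : ℂ[X], 2 ≤ P.natDegree →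
        (FiberHyperbolic (id : Unit → Unit) (fun _ => P) ↔ Hyperbolic P)) ∧
      ((∀ P : ℂ[X], 2 ≤ P.natDegree → Stable (id : Unit → Unit) (fun _ => P) →
        FiberHyperbolic (id : Unit → Unit) (fun _ => P)) → Q1)) ∧
    -- (II)
    (∀ (B : Type) [TopologicalSpace B] [NormalSpace B] [T2Space B] (T : B → B), Continuous T →
      (∀ x : B, ∀ k : ℕ, 1 ≤ k → T^[k] x ≠ x) →
      ∀ P : B → ℂ[X], ContCoeff P → (∃ (d : ℕ) (A : ℝ), 1 ≤ A ∧ ∀ x, Bounded d A (P x)) →
      (FiberHyperbolic T P ↔ Stable T P)) ∧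
    -- (III)
    (∀ (B : Type) [TopologicalSpace B] [CompactSpace B] [T2Space B] (T : B → B), Continuous T →
      (∀ x : B, ∀ k : ℕ, 1 ≤ k → T^[k] x ≠ x) →
      ∀ P : B → ℂ[X], ContCoeff P → IsLocallyConstant (fun x => (P x).natDegree) →
      (∀ x, 2 ≤ (P x).natDegree) → (FiberHyperbolic T P ↔ Stable T P)) ∧
    -- (IV)
    (∀ (B : Type) [TopologicalSpace B] [CompactSpace B] [T2Space B] [Infinite B] (T : B ≃ₜ B),
      (∀ x : B, Dense (Set.range fun k : ℕ => (⇑T)^[k] x)) → ∀ d : ℕ, 2 ≤ d →
      (DenseStable (⇑T) d ↔ TotallyDisconnectedSpace B)) ∧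
    -- (V)
    (∀ (d : ℕ) (A ε : ℝ), 1 ≤ A → 0 < ε →
      ∃ (n₀ : ℕ) (r K lam : ℝ), 0 < r ∧ 0 < lam ∧ lam < 1 ∧
      (∀ (B : Type) [TopologicalSpace B] [NormalSpace B] [T2Space B] (T : B → B), Continuous T →
        (∀ x : B, ∀ k : ℕ, 1 ≤ k → k < n₀ → T^[k] x ≠ x) →
        ∀ P : B → ℂ[X], ContCoeff P → (∀ x, Bounded d A (P x)) →
        StableWith T P ε → HyperbolicWith T P r K lam) ∧
      (∀ n : ℕ, n₀ ≤ n → ∀ P : ZMod n → ℂ[X], (∀ i, Bounded d A (P i)) →
        StableWith (fun i : ZMod n => i + 1) P ε →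
        Hyperbolic (comp (fun i : ℕ => P (i : ZMod n)) n))) ∧
    -- (VI)
    (∀ (d : ℕ) (A r K lam : ℝ), 1 ≤ A → 0 < r → 0 < lam → lam < 1 →
      ∃ ε : ℝ, 0 < ε ∧ ∀ (B : Type) [TopologicalSpace B] (T : B → B) (P : B → ℂ[X]),
        (∀ x, Bounded d A (P x)) → HyperbolicWith T P r K lam → StableWith T P ε) ∧
    -- (VII)
    (∀ (B : Type) [TopologicalSpace B] [NormalSpace B] [T2Space B] (T : B → B), Continuous T →
      ∀ P : B → ℂ[X], ContCoeff P → (∃ (d : ℕ) (A : ℝ), 1 ≤ A ∧ ∀ x, Bounded d A (P x)) →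
      (FiberHyperbolic T P ↔
        ∃ ε : ℝ, 0 < ε ∧ ∀ n, StableWith (cyc T n) (fun p => P p.1) ε) ∧
      (FiberHyperbolic T P ↔
        ∃ ε : ℝ, 0 < ε ∧ ∀ n₁ : ℕ, ∃ n, n₁ ≤ n ∧ StableWith (cyc T n) (fun p => P p.1) ε)) ∧
    -- (VIII)
    (∀ P : ℂ[X], 2 ≤ P.natDegree →
      (Hyperbolic P ↔
        ∃ ε : ℝ, 0 < ε ∧ ∀ n, StableWith (fun i : ZMod n => i + 1) (fun _ => P) ε) ∧
      (Hyperbolic P ↔
        ∃ ε : ℝ, 0 < ε ∧ ∀ n₁ : ℕ, ∃ n, n₁ ≤ n ∧
          StableWith (fun i : ZMod n => i + 1) (fun _ => P) ε)) ∧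
    -- (IX)
    (∀ (d : ℕ) (A : ℝ), 1 ≤ A → ∃ C : ℝ, 0 < C ∧ ∀ n : ℕ, 2 ≤ n → C * Real.log n / n ≤ 1 →
      (∀ (B : Type) [TopologicalSpace B] [NormalSpace B] [T2Space B] (T : B → B), Continuous T →
        ∀ P : B → ℂ[X], ContCoeff P → (∀ x, Bounded d A (P x)) →
        ((∀ x : B, ∀ k : ℕ, 1 ≤ k → k < n → T^[k] x ≠ x) →
          StableWith T P (C * Real.log n / n) → FiberHyperbolic T P) ∧
        (StableWith (cyc T n) (fun p => P p.1) (C * Real.log n / n) → FiberHyperbolic T P)) ∧
      (∀ P : ℂ[X], Bounded d A P →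
        StableWith (fun i : ZMod n => i + 1) (fun _ => P) (C * Real.log n / n) →
        Hyperbolic P)) := by
  refine ⟨⟨fun P hP => point_iff hP, ?_⟩, ?_, ?_, ?_, ?_, ?_, ?_, ?_, ?_⟩
  · intro h P hP ε hε
    obtain ⟨s, hs, hst⟩ := Pool.Agent.Y334.ST.stable_dense_pt hP hε
    have hdeg : (P + C s).natDegree = P.natDegree := natDegree_add_C
    refine ⟨P + C s, hdeg, fun i => ?_, ?_⟩
    · rw [coeff_add, add_sub_cancel_left, coeff_C]
      split_ifs
      · exact hs
      · rw [norm_zero]
        exact hε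
    · rw [← point_iff (by rw [hdeg]; exact hP)]
      exact h _ (by rw [hdeg]; exact hP) ((stable_iff _ _).2 hst)
  · rintro B _ _ _ T hTc hT P hc ⟨d, A, hA, hB⟩
    rw [fhyp_iff, stable_iff]
    exact (Pool.Agent.Y334.ST.stb_iff hTc hT hc hA hB).symm
  · intro B _ _ _ T hTc hT P hc hlc h2
    obtain ⟨d, A, hA, hB⟩ := Pool.Agent.Y334.FN.exists_bd hc hlc h2
    rw [fhyp_iff, stable_iff]
    exact (Pool.Agent.Y334.ST.stb_iff hTc hT hc hA hB).symm
  · intro B _ _ _ _ T hT d hd
    rw [← Pool.Agent.Y334.ST.minimal_stable T hT hd]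
    simp only [DenseStable, stable_iff, ContCoeff]
  · intro d A ε hA hε
    obtain ⟨n₀, r, K, lam, -, hr, hl0, hl1, h1, h2⟩ := Pool.Agent.Y334.ST.quant_cyc d hA hε
    refine ⟨n₀, r, K, lam, hr, hl0, hl1, ?_, ?_⟩
    · intro B _ _ _ T hTc hT P hc hB hst
      exact (hyp_iff _ _ _ _ _).2 (h1 B T hTc hT P hc hB ((stableWith_iff _ _ _).1 hst))
    · intro n hn P hB hst
      rw [comp_eq]
      exact h2 n hn P hB ((stableWith_iff _ _ _).1 hst)
  · intro d A r K lam hA hr hl0 hl1
    obtain ⟨ε, hε, h⟩ := Pool.Agent.Y334.ST.stb_unif d (K := K) hA hr hl0 hl1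
    refine ⟨ε, hε, fun B _ T P hB hyp => ?_⟩
    exact (stableWith_iff _ _ _).2 (h B T P hB ((hyp_iff _ _ _ _ _).1 hyp))
  · rintro B _ _ _ T hTc P hc ⟨d, A, hA, hB⟩
    have h := Pool.Agent.Y334.ST.stb_cyc hTc hc hA hB
    rw [fhyp_iff]
    simp only [stableWith_iff]
    exact h
  · intro P hP
    rw [← point_iff hP, fhyp_iff]
    simp only [stableWith_iff]
    obtain ⟨d, A, hA, hB⟩ := Pool.Agent.Y334.FN.exists_bd (P := fun _ : Unit => P)
      (fun _ => continuous_const) (IsLocallyConstant.const _) (fun _ => hP)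
    exact Pool.Agent.Y334.ST.stb_one hA (hB ())
  · intro d A hA
    obtain ⟨C, hC, h⟩ := Pool.Agent.Y334.ST.rate_cyc d hA
    refine ⟨C, hC, fun n hn hC1 => ⟨?_, ?_⟩⟩
    · intro B _ _ _ T hTc P hc hB
      have h1 := (h n hn hC1).1 B T hTc P hc hB
      rw [fhyp_iff]
      simp only [stableWith_iff]
      exact h1
    · intro P hP hst
      rw [← point_iff hP.1, fhyp_iff]
      exact (h n hn hC1).2 P hP ((stableWith_iff _ _ _).1 hst)

end Pool.Agent.Results.MP_28f8a1_an.StableIsHyperbolic
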